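import Pool.Agent.H30.EE.TargetsG
import Pool.Agent.H66.VG.Base
import Pool.Agent.H97.VG.OP

/-!
# Rigidity: the relation comes from a vector field on the curve
-/

set_option autoImplicit false

open MvPolynomial SC Pool.Agent.H27.LV Pool.Agent.H17.VG Pool.Agent.H30.EE

namespace Pool.Agent.H89.EE

section Lin

variable {K V W : Type*} [Field K] [AddCommGroup V] [Module K V] [AddCommGroup W] [Module K W]

lemma finrank_map_add (f : V →ₗ[K] W) (P : Submodule K V) [FiniteDimensional K P] :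
    Module.finrank K (P.map f) + Module.finrank K ↥(P ⊓ LinearMap.ker f) =
      Module.finrank K P := by
  have h1 := LinearMap.finrank_range_add_finrank_ker (f.domRestrict P)
  have h2 : LinearMap.range (f.domRestrict P) = P.map f := LinearMap.range_domRestrict P f
  have h3 : (LinearMap.ker (f.domRestrict P)).map P.subtype = P ⊓ LinearMap.ker f := by
    ext x
    constructor
    · rintro ⟨y, hy, rfl⟩
      exact ⟨y.2, hy⟩
    · rintro ⟨hx, hx'⟩
      exact ⟨⟨x, hx⟩, hx', rfl⟩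
  have h4 := Submodule.finrank_map_subtype_eq P (LinearMap.ker (f.domRestrict P))
  rw [h3] at h4
  rw [h2] at h1
  omega

lemma finrank_map_inj (f : V →ₗ[K] W) (P : Submodule K V) (hf : ∀ x ∈ P, f x = 0 → x = 0) :
    Module.finrank K (P.map f) = Module.finrank K P := by
  have h : Function.Injective (f.domRestrict P) := by
    rw [← LinearMap.ker_eq_bot, LinearMap.ker_eq_bot']
    intro x hx
    exact Subtype.ext (hf x x.2 hx)
  rw [← LinearMap.range_domRestrict P f]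
  exact LinearMap.finrank_range_of_inj h

lemma finite_of_map_inj (f : V →ₗ[K] W) (P : Submodule K V) (hf : ∀ x ∈ P, f x = 0 → x = 0)
    [FiniteDimensional K (P.map f)] : FiniteDimensional K P := by
  have h : Function.Injective ((f.domRestrict P).codRestrict (P.map f)
      (fun x => ⟨x, x.2, rfl⟩)) := by
    rw [← LinearMap.ker_eq_bot, LinearMap.ker_eq_bot']
    intro x hx
    exact Subtype.ext (hf x x.2 (congrArg Subtype.val hx))
  exact FiniteDimensional.of_injective _ h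

end Lin

lemma finite_Sd (K : Type) [Field K] (n d : ℕ) : FiniteDimensional K ↥(Sd K n d) :=
  Module.Finite.iff_fg.2 (homogeneousSubmodule_fg (Fin (n + 1)) K d)

theorem pf_RG3 (hRG0 : T_RG0) (hRG2 : T_RG2) (hRMD : T_RMD) (hQDM : T_QDM) : T_RG3 := by
  classical
  intro R K _ _ _ _ n e r F D z a hr hS hDx hFx hz ha0 haL hdF e0 m' hT hTm hnum q hq
  by_contra hp
  have hOP := Pool.Agent.H97.VG.op
  -- the degree
  obtain ⟨e1, rfl⟩ : ∃ e1, e = e1 + 1 := by
    rcases Nat.eq_zero_or_pos e with he | he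
    · exfalso
      subst he
      have : m' ≤ r * (0 + 1) := by omega
      nlinarith
    · exact ⟨e - 1, by omega⟩
  have hq2 : q.IsHomogeneous 2 := (mem_homogeneousSubmodule 2 q).1 hq.1
  have hqz : resC z q = 0 := hq.2
  have hq0 : q ≠ 0 := by
    rintro rfl
    apply hp
    have := (hRG0 R K n r z a 0 0).2.1 0
    simpa using this
  -- linear maps
  set Φ : Op R K n →ₗ[K] MvPolynomial (Fin (n + 1)) K := Pool.Agent.H66.VG.opFL hOP F with hΦ
  have hΦa : ∀ τ, Φ τ = opF τ F := fun τ => rfl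
  let μ : MvPolynomial (Fin (n + 1)) K →ₗ[K] MvPolynomial (Fin (n + 1)) K :=
    LinearMap.mulLeft K q
  have hμ : ∀ Q, μ Q = q * Q := fun Q => rfl
  have hμ0 : ∀ Q, μ Q = 0 → Q = 0 := fun Q h => (mul_eq_zero.1 h).resolve_left hq0
  let Δ : MvPolynomial (Fin (n + 1)) K →ₗ[K] Polynomial K :=
    { toFun := dA z a
      map_add' := fun G G' => (hRG0 R K n r z a G G').1
      map_smul' := fun c G => (hRG0 R K n r z a G G).2.1 c }
  have hΔ : ∀ G, Δ G = dA z a G := fun G => rfl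
  set L := Submodule.span K (Set.range z) with hL
  set T := TL R (e1 + 1 + 1) F (z 0) L with hTdef
  have hTM : T ≤ Md (e1 + 1 + 1) (z 0) := by
    rw [hTdef]
    unfold TL
    rw [Submodule.span_le]
    intro G hG
    exact hG.1
  have hTS : T ≤ Sd K n (e1 + 1 + 1) := hTM.trans inf_le_left
  have fS : ∀ d, FiniteDimensional K ↥(Sd K n d) := finite_Sd K n
  have fT : FiniteDimensional K T := Submodule.finiteDimensional_of_le hTS
  have hIS : ∀ d, Iz d z ≤ Sd K n d := fun d => inf_le_left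
  have fI : ∀ d, FiniteDimensional K ↥(Iz d z) := fun d =>
    Submodule.finiteDimensional_of_le (hIS d)
  -- the operators which fix `x` and `L`
  let Θ : Submodule K (Op R K n) :=
    (Submodule.span K {z 0}).comap (Pool.Agent.H66.VG.opVL hOP (z 0)) ⊓
      ⨅ j, L.comap (Pool.Agent.H66.VG.opVL hOP (z j))
  have hΘ : ∀ τ, τ ∈ Θ ↔ opV τ (z 0) ∈ Submodule.span K {z 0} ∧ ∀ j, opV τ (z j) ∈ L := by
    intro τ
    simp only [Θ, Submodule.mem_inf, Submodule.mem_iInf, Submodule.mem_comap]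
    rfl
  have hΘ0 : ∀ τ ∈ Θ, Φ τ = 0 → τ = 0 := by
    intro τ hτ h0
    obtain ⟨h2, c, h1⟩ := hS.ker τ h0
    have hτ1 := ((hΘ τ).1 hτ).1
    obtain ⟨b, hb⟩ := Submodule.mem_span_singleton.1 hτ1
    have h3 : opV τ (z 0) = c • fun i => D (z 0 i) := by
      funext i
      unfold opV
      rw [h2, h1]
      simp
    have h4 : (-b) • z 0 + c • (fun i => D (z 0 i)) = 0 := by
      rw [← h3, ← hb]
      simp
    have h5 := (LinearIndependent.pair_iff.1 hDx) (-b) c h4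
    refine Prod.ext ?_ h2
    rw [h1, h5.2, zero_smul]
    rfl
  have hTΘ : T ≤ Θ.map Φ := by
    rw [hTdef]
    unfold TL
    rw [Submodule.span_le]
    rintro G ⟨-, τ, h1, ⟨c, h2⟩, h3⟩
    refine ⟨τ, (hΘ τ).2 ⟨?_, fun j => h3 _ (Submodule.subset_span ⟨j, rfl⟩)⟩, h1⟩
    rw [h2]
    exact Submodule.smul_mem _ _ (Submodule.mem_span_singleton_self _)
  -- the subspace `V0`
  set S := Sd K n e1 with hSdef
  let V0 : Submodule K (MvPolynomial (Fin (n + 1)) K) := S ⊓ T.comap μ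
  have fV0 : FiniteDimensional K V0 := Submodule.finiteDimensional_of_le (inf_le_left : V0 ≤ S)
  have hmulI : ∀ Q ∈ S, μ Q ∈ Iz (e1 + 1 + 1) z := by
    intro Q hQ
    refine ⟨?_, ?_⟩
    · have h := hq2.mul ((mem_homogeneousSubmodule e1 Q).1 hQ)
      refine (mem_homogeneousSubmodule _ _).2 ?_
      have e : 2 + e1 = e1 + 1 + 1 := by ring
      rw [← e]
      exact h
    · show aeval _ (q * Q) = 0
      rw [map_mul]
      have : aeval (R := K) (fun i => ∑ j, Polynomial.C (z j i) *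
        (Polynomial.X : Polynomial K) ^ (j : ℕ)) q = 0 := hqz
      rw [this, zero_mul]
  have hA : Module.finrank K S + m' ≤ Module.finrank K V0 + e0 := by
    have h1 : Module.finrank K ↥(S.map μ) = Module.finrank K S :=
      finrank_map_inj μ S fun Q _ h => hμ0 Q h
    have h2 : Module.finrank K ↥(V0.map μ) = Module.finrank K V0 :=
      finrank_map_inj μ V0 fun Q _ h => hμ0 Q h
    have h3 : S.map μ ⊓ (T ⊓ Iz (e1 + 1 + 1) z) = V0.map μ := by
      ext G
      constructor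
      · rintro ⟨⟨Q, hQ, rfl⟩, hG, -⟩
        exact ⟨Q, ⟨hQ, hG⟩, rfl⟩
      · rintro ⟨Q, ⟨hQ, hG⟩, rfl⟩
        exact ⟨⟨Q, hQ, rfl⟩, hG, hmulI Q hQ⟩
    have fSm : FiniteDimensional K ↥(S.map μ) := inferInstance
    have fTI : FiniteDimensional K ↥(T ⊓ Iz (e1 + 1 + 1) z) :=
      Submodule.finiteDimensional_of_le (inf_le_left : T ⊓ Iz (e1 + 1 + 1) z ≤ T)
    have h4 := Submodule.finrank_sup_add_finrank_inf_eq (S.map μ) (T ⊓ Iz (e1 + 1 + 1) z)
    rw [h3] at h4
    have h5 : S.map μ ⊔ (T ⊓ Iz (e1 + 1 + 1) z) ≤ Iz (e1 + 1 + 1) z := by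
      refine sup_le ?_ inf_le_right
      rintro _ ⟨Q, hQ, rfl⟩
      exact hmulI Q hQ
    have h6 := Submodule.finrank_mono h5
    have h7 := finrank_map_add (resL z) T
    have h8 : T ⊓ LinearMap.ker (resL z) = T ⊓ Iz (e1 + 1 + 1) z := by
      ext G
      constructor
      · rintro ⟨h, h'⟩
        exact ⟨h, hTS h, h'⟩
      · rintro ⟨h, -, h'⟩
        exact ⟨h, h'⟩
    rw [h8] at h7
    have h9 := (hRMD K n r (e1 + 1 + 1) z hz).2.1
    omega
  -- operators with symbol in `q V0`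
  let Θ0 : Submodule K (Op R K n) := Θ ⊓ (V0.map μ).comap Φ
  have hΘ0map : Θ0.map Φ = V0.map μ := by
    ext G
    constructor
    · rintro ⟨τ, ⟨-, h⟩, rfl⟩
      exact h
    · intro hG
      obtain ⟨Q, ⟨hQ, hQT⟩, rfl⟩ := hG
      obtain ⟨τ, hτ, hτG⟩ := hTΘ hQT
      refine ⟨τ, ⟨hτ, ?_⟩, hτG⟩
      show Φ τ ∈ V0.map μ
      rw [hτG]
      exact ⟨Q, ⟨hQ, hQT⟩, rfl⟩
  have hΘ0inj : ∀ τ ∈ Θ0, Φ τ = 0 → τ = 0 := fun τ hτ h => hΘ0 τ hτ.1 h
  have fΘ0m : FiniteDimensional K ↥(Θ0.map Φ) := by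
    rw [hΘ0map]
    infer_instance
  have fΘ0 : FiniteDimensional K Θ0 := finite_of_map_inj Φ Θ0 hΘ0inj
  have hB : Module.finrank K Θ0 = Module.finrank K V0 := by
    rw [← finrank_map_inj Φ Θ0 hΘ0inj, hΘ0map]
    exact finrank_map_inj μ V0 fun Q _ h => hμ0 Q h
  -- operators which kill the `z j`
  let Ψ : Θ0 →ₗ[K] (Fin (r + 1) → L) := LinearMap.pi fun j =>
    ((Pool.Agent.H66.VG.opVL hOP (z j)).domRestrict Θ0).codRestrict L
      (fun τ => ((hΘ τ).1 τ.2.1).2 j)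
  let Θ1 : Submodule K (Op R K n) := (LinearMap.ker Ψ).map Θ0.subtype
  have hΘ1 : ∀ τ ∈ Θ1, τ ∈ Θ0 ∧ ∀ j, opV τ (z j) = 0 := by
    rintro _ ⟨τ, hτ, rfl⟩
    refine ⟨τ.2, fun j => ?_⟩
    have h := congrFun (LinearMap.mem_ker.1 hτ) j
    exact congrArg Subtype.val h
  have hC : Module.finrank K Θ0 ≤ Module.finrank K Θ1 + (r + 1) ^ 2 := by
    have h1 := LinearMap.finrank_range_add_finrank_ker Ψ
    have h2 : Module.finrank K Θ1 = Module.finrank K (LinearMap.ker Ψ) :=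
      Submodule.finrank_map_subtype_eq Θ0 (LinearMap.ker Ψ)
    have h3 : Module.finrank K L ≤ r + 1 := by
      have := finrank_range_le_card (R := K) z
      rw [Fintype.card_fin] at this
      exact this
    have h4 : Module.finrank K (LinearMap.range Ψ) ≤ (r + 1) * Module.finrank K L := by
      refine (Submodule.finrank_le _).trans ?_
      rw [Module.finrank_pi_fintype, Finset.sum_const, Finset.card_univ, Fintype.card_fin,
        smul_eq_mul]
    have h5 : (r + 1) * Module.finrank K L ≤ (r + 1) ^ 2 := by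
      rw [pow_two]
      exact Nat.mul_le_mul_left _ h3
    omega
  have fΘ1 : FiniteDimensional K Θ1 := inferInstanceAs (FiniteDimensional K
    ↥((LinearMap.ker Ψ).map Θ0.subtype))
  -- the elements of `T.map (resL z)`
  have hfor : ∀ τ ∈ Θ1, ∃ Q ∈ V0, Φ τ = q * Q ∧ Δ (Φ τ) = dA z a q * resC z Q := by
    intro τ hτ
    obtain ⟨h1, h2⟩ := hΘ1 τ hτ
    obtain ⟨Q, hQ, hQτ⟩ := h1.2
    refine ⟨Q, hQ, hQτ.symm, ?_⟩
    rw [hΔ, ← hQτ, hμ, (hRG0 R K n r z a q Q).2.2.1, hqz, zero_mul, add_zero]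
  have hmem : ∀ τ ∈ Θ1, Δ (Φ τ) ∈ T.map (resL z) := by
    intro τ hτ
    obtain ⟨h1, h2⟩ := hΘ1 τ hτ
    obtain ⟨Q, hQ, hQτ⟩ := h1.2
    have h3 : resC z (opF τ F) = 0 := by
      rw [← hΦa, ← hQτ]
      exact (hmulI Q hQ.1).2
    exact hRG2 R K n (e1 + 1) r F z a hS.homog hz ha0 haL hdF hFx τ h2 h3
  have hD : Module.finrank K Θ1 ≤ Module.finrank K ↥(T.map (resL z)) +
      Module.finrank K ↥(Iz e1 z) := by
    have h1 := finrank_map_add (Δ ∘ₗ Φ) Θ1
    have h2 : Θ1.map (Δ ∘ₗ Φ) ≤ T.map (resL z) := by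
      rintro _ ⟨τ, hτ, rfl⟩
      exact hmem τ hτ
    have h3 := Submodule.finrank_mono h2
    have h4 : Module.finrank K ↥((Θ1 ⊓ LinearMap.ker (Δ ∘ₗ Φ)).map Φ) =
        Module.finrank K ↥(Θ1 ⊓ LinearMap.ker (Δ ∘ₗ Φ)) :=
      finrank_map_inj Φ _ fun τ hτ h => hΘ0inj τ (hΘ1 τ hτ.1).1 h
    have h5 : (Θ1 ⊓ LinearMap.ker (Δ ∘ₗ Φ)).map Φ ≤ (Iz e1 z).map μ := by
      rintro _ ⟨τ, ⟨hτ, hτ'⟩, rfl⟩
      obtain ⟨Q, hQ, hQτ, hQΔ⟩ := hfor τ hτ
      refine ⟨Q, ⟨hQ.1, ?_⟩, hQτ.symm⟩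
      have h6 : dA z a q * resC z Q = 0 := by
        rw [← hQΔ]
        exact hτ'
      exact (mul_eq_zero.1 h6).resolve_left hp
    have h6 := Submodule.finrank_mono h5
    have h7 : Module.finrank K ↥((Iz e1 z).map μ) ≤ Module.finrank K ↥(Iz e1 z) :=
      Submodule.finrank_map_le μ (Iz e1 z)
    omega
  have hE : Module.finrank K ↥(Iz e1 z) + (r * e1 + 1) = Module.finrank K S :=
    (hQDM K r n e1 z hz).2.2.1
  have hfin : r * (e1 + 1 + 1) = r * e1 + 2 * r := by ring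
  omega

end Pool.Agent.H89.EE
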