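import Pool.Agent.H30.EE.TargetsP
import Pool.Agent.H92.VG.CC

/-!
# Semicontinuity of the image
-/

set_option autoImplicit false

open MvPolynomial SC Pool.Agent.H27.LV Pool.Agent.H17.VG Pool.Agent.H30.EE

namespace Pool.Agent.H89.EE

theorem pf_SEM : T_SEM := by
  intro k K V W _ _ _ _ _ _ _ _ _ E0 E1 w hr hinf
  classical
  by_contra hw
  obtain ⟨v, hv⟩ : ∃ v : Fin (Module.finrank K (LinearMap.range E0)) → V, ∀ i, E0 (v i) =
      ((Module.finBasis K (LinearMap.range E0) i : LinearMap.range E0) : W) := by
    have h : ∀ i, ∃ a : V, E0 a =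
      ((Module.finBasis K (LinearMap.range E0) i : LinearMap.range E0) : W) :=
      fun i => (Module.finBasis K (LinearMap.range E0) i).2
    choose v hv using h
    exact ⟨v, hv⟩
  have hli : LinearIndependent K (fun i => E0 (v i)) := by
    have h : (fun i => E0 (v i)) = (LinearMap.range E0).subtype ∘
        (Module.finBasis K (LinearMap.range E0)) := funext hv
    rw [h]
    exact (Module.finBasis K (LinearMap.range E0)).linearIndependent.map' _
      (Submodule.ker_subtype _)
  have hsp : w ∉ Submodule.span K (Set.range fun i => E0 (v i)) := by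
    intro h
    apply hw
    have h2 : Submodule.span K (Set.range fun i => E0 (v i)) ≤ LinearMap.range E0 := by
      rw [Submodule.span_le]
      rintro _ ⟨i, rfl⟩
      exact ⟨v i, rfl⟩
    exact h2 h
  have hli2 := linearIndependent_finCons.2 ⟨hli, hsp⟩
  have hfin := Pool.Agent.H92.VG.pf_OE K W (Fin (Module.finrank K (LinearMap.range E0) + 1))
    (Fin.cons w fun i => E0 (v i)) (Fin.cons 0 fun i => E1 (v i)) (Or.inl hli2)
  have hfin' := hfin.preimage ((algebraMap k K).injective.injOn (s := (algebraMap k K) ⁻¹'
    {ε : K | ¬ LinearIndependent K fun i =>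
      (Fin.cons w (fun i => E0 (v i)) : Fin (Module.finrank K (LinearMap.range E0) + 1) → W) i +
      ε • (Fin.cons 0 (fun i => E1 (v i)) :
        Fin (Module.finrank K (LinearMap.range E0) + 1) → W) i}))
  obtain ⟨t, ht, ht'⟩ := (hinf.sdiff hfin').nonempty
  have hLI : LinearIndependent K fun i =>
      (Fin.cons w (fun i => E0 (v i)) : Fin (Module.finrank K (LinearMap.range E0) + 1) → W) i +
      algebraMap k K t • (Fin.cons 0 (fun i => E1 (v i)) :
        Fin (Module.finrank K (LinearMap.range E0) + 1) → W) i := by
    by_contra hc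
    exact ht' hc
  have hmem : ∀ i, (Fin.cons w (fun i => E0 (v i)) :
      Fin (Module.finrank K (LinearMap.range E0) + 1) → W) i +
      algebraMap k K t • (Fin.cons 0 (fun i => E1 (v i)) :
        Fin (Module.finrank K (LinearMap.range E0) + 1) → W) i ∈
      LinearMap.range (E0 + algebraMap k K t • E1) := by
    intro i
    refine Fin.cases ?_ (fun j => ?_) i
    · rw [Fin.cons_zero, Fin.cons_zero, smul_zero, add_zero]
      exact ht
    · rw [Fin.cons_succ, Fin.cons_succ]
      exact ⟨v j, by simp⟩
  have hLI2 : LinearIndependent K (fun i => (⟨_, hmem i⟩ :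
      LinearMap.range (E0 + algebraMap k K t • E1))) :=
    LinearIndependent.of_comp (LinearMap.range (E0 + algebraMap k K t • E1)).subtype hLI
  have h1 := hLI2.fintype_card_le_finrank
  rw [Fintype.card_fin] at h1
  have h2 := hr t
  omega

end Pool.Agent.H89.EE
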