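import Pool.Agent.H30.EE.TargetsU
import Pool.Agent.H27.LV.Curve

/-!
# Curves of minimal degree are rational normal curves
-/

set_option autoImplicit false

open MvPolynomial SC Pool.Agent.H27.LV Pool.Agent.H17.VG Pool.Agent.H30.EE

namespace Pool.Agent.H89.EE

lemma eq_of_finsum {α : Type} (t b : α → ℤ) (ht : {a | t a ≠ 0}.Finite)
    (hb : {a | b a ≠ 0}.Finite) (hle : ∀ a, b a ≤ t a) (hs : ∑ᶠ a, b a = ∑ᶠ a, t a) :
    ∀ a, b a = t a := by
  classical
  intro a
  by_cases ha : a ∈ ht.toFinset ∪ hb.toFinset
  · rw [finsum_eq_sum_of_support_subset b (s := ht.toFinset ∪ hb.toFinset)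
      (fun x hx => by
        rw [Finset.coe_union]
        exact Or.inr (hb.mem_toFinset.2 hx)),
      finsum_eq_sum_of_support_subset t (s := ht.toFinset ∪ hb.toFinset)
      (fun x hx => by
        rw [Finset.coe_union]
        exact Or.inl (ht.mem_toFinset.2 hx))] at hs
    exact (Finset.sum_eq_sum_iff_of_le fun i _ => hle i).1 hs a ha
  · rw [Finset.mem_union, not_or, Set.Finite.mem_toFinset, Set.Finite.mem_toFinset] at ha
    have h1 : t a = 0 := by
      by_contra h
      exact ha.1 h
    have h2 : b a = 0 := by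
      by_contra h
      exact ha.2 h
    rw [h1, h2]

section

variable {k E : Type} [Field k] [IsAlgClosed k] [CharZero k] [Field E] [Algebra k E]
  [Algebra.EssFiniteType k E]

/-- a function without poles is constant -/
lemma const_of_nonneg (htr : Algebra.trdeg k E = 1) (v0 : DV k E) (f : E)
    (hf : ∀ v : DV k E, 0 ≤ v.ord f) : f ∈ Set.range (algebraMap k E) := by
  obtain ⟨c, hc⟩ := (rat k E htr v0).2 f (hf v0)
  rcases hc with hc | hc
  · exact ⟨c, (sub_eq_zero.1 hc).symm⟩
  · exfalso
    obtain ⟨hfin, hsum⟩ := pfm k E htr (f - algebraMap k E c)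
    have hnn : ∀ v : DV k E, (0 : ℤ) ≤ v.ord (f - algebraMap k E c) := fun v =>
      v.ord_sub_nonneg (hf v) (by rw [v.ord_base])
    have h := eq_of_finsum (fun v : DV k E => v.ord (f - algebraMap k E c)) (fun _ => 0) hfin
      (by simp) hnn (by rw [hsum]; simp) v0
    omega

lemma exists_zero (htr : Algebra.trdeg k E = 1) (v0 : DV k E) (f : E)
    (hf : f ∉ Set.range (algebraMap k E)) : ∃ v : DV k E, 1 ≤ v.ord f := by
  by_contra hc
  push Not at hc
  obtain ⟨hfin, hsum⟩ := pfm k E htr f
  have h := eq_of_finsum (fun _ : DV k E => (0 : ℤ)) (fun v : DV k E => v.ord f) (by simp) hfin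
    (fun v => by have := hc v; omega) (by rw [hsum]; simp)
  exact hf (const_of_nonneg htr v0 f fun v => le_of_eq (h v).symm)

lemma infinite_places (htr : Algebra.trdeg k E = 1) (v0 : DV k E) (u : E)
    (hu : u ∉ Set.range (algebraMap k E)) : Infinite (DV k E) := by
  have h : ∀ c : k, ∃ v : DV k E, 1 ≤ v.ord (u - algebraMap k E c) := by
    intro c
    refine exists_zero htr v0 _ ?_
    rintro ⟨a, ha⟩
    apply hu
    refine ⟨a + c, ?_⟩
    rw [map_add, ha]
    ring
  choose g hg using h
  have hk : Infinite k := IsAlgClosed.instInfinite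
  refine Infinite.of_injective g ?_
  intro c c' hcc
  by_contra hne
  have h1 := hg c
  have h2 := hg c'
  rw [← hcc] at h2
  have h3 : ge (g c) 1 (algebraMap k E (c' - c)) := by
    have e : algebraMap k E (c' - c) = (u - algebraMap k E c) - (u - algebraMap k E c') := by
      rw [map_sub]
      ring
    rw [e]
    exact ge.sub (Or.inr h1) (Or.inr h2)
  have h4 := const_eq_zero (g c) (by norm_num : (0 : ℤ) < 1) h3
  exact hne (sub_eq_zero.1 h4).symm

omit [IsAlgClosed k] [CharZero k] [Algebra.EssFiniteType k E] in
lemma ge_span {m : ℕ} (w : Fin (m + 1) → E) (v : DV k E) {f : E}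
    (hf : f ∈ Submodule.span k (Set.range w)) : ge v (-(poleOrder v w : ℤ)) f := by
  induction hf using Submodule.span_induction with
  | mem x hx =>
    obtain ⟨i, rfl⟩ := hx
    right
    have h1 : (-(v.ord (w i))).toNat ≤ poleOrder v w :=
      Finset.le_sup (f := fun i => (-(v.ord (w i))).toNat) (Finset.mem_univ i)
    omega
  | zero => exact ge_zero v _
  | add x y _ _ hx hy => exact ge.add hx hy
  | smul a x _ hx =>
    rw [Algebra.smul_def]
    have := ge.mul (ge_const v a) hx
    rw [zero_add] at this
    exact this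

end

theorem pf_URN (hUJT : T_UJT) : T_URN := by
  intro k E _ _ _ _ _ _ htr m w hm hli hdeg
  classical
  obtain ⟨-, hJ⟩ := hUJT k E htr m w hli
  -- a place
  obtain ⟨v0, hv0⟩ : ∃ v0 : DV k E, poleOrder v0 w ≠ 0 := by
    by_contra hc
    push Not at hc
    have : deg k w = 0 := by
      unfold deg
      rw [finsum_congr hc, finsum_zero]
    omega
  have hw0 : ∃ i, w i ∉ Set.range (algebraMap k E) := by
    by_contra hc
    push Not at hc
    apply hv0
    unfold poleOrder
    rw [← Nat.le_zero]
    refine Finset.sup_le fun i _ => ?_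
    obtain ⟨a, ha⟩ := hc i
    rw [← ha, v0.ord_base]
    simp
  obtain ⟨i0, hi0⟩ := hw0
  have hinf := infinite_places htr v0 (w i0) hi0
  have hpf := pfi k E htr (Fin (m + 1)) w
  obtain ⟨v, hv⟩ := hpf.infinite_compl.nonempty
  obtain ⟨v', hv'⟩ := (hpf.union (Set.finite_singleton v)).infinite_compl.nonempty
  have hpv : poleOrder v w = 0 := by
    by_contra h
    exact hv h
  have hpv' : poleOrder v' w = 0 := by
    by_contra h
    exact hv' (Or.inl h)
  have hvv : v ≠ v' := fun h => hv' (Or.inr h.symm)
  -- the functions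
  have hF : ∀ i : ℕ, ∃ f : E, i ≤ m → f ∈ Submodule.span k (Set.range w) ∧ f ≠ 0 ∧
      (i : ℤ) ≤ v.ord f ∧ ((m - i : ℕ) : ℤ) ≤ v'.ord f := by
    intro i
    by_cases hi : i ≤ m
    · obtain ⟨f, h1, h2, h3, h4⟩ := hJ v v' hvv hpv hpv' i hi
      exact ⟨f, fun _ => ⟨h1, h2, h3, h4⟩⟩
    · exact ⟨0, fun h => absurd h hi⟩
  choose F hF using hF
  have hord : ∀ i ≤ m, ∀ u : DV k E, u.ord (F i) + poleOrder u w =
      if u = v then (i : ℤ) else if u = v' then ((m - i : ℕ) : ℤ) else 0 := by
    intro i hi
    obtain ⟨h1, h2, h3, h4⟩ := hF i hi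
    obtain ⟨hfin, hsum⟩ := pfm k E htr (F i)
    have e1 : ∑ᶠ u : DV k E, (u.ord (F i) + (poleOrder u w : ℤ)) = m := by
      have hpf' : (Function.support fun u : DV k E => (poleOrder u w : ℤ)).Finite := by
        refine hpf.subset ?_
        intro u hu h
        apply hu
        show ((poleOrder u w : ℕ) : ℤ) = 0
        rw [h]
        rfl
      have hc : ((deg k w : ℕ) : ℤ) = ∑ᶠ u : DV k E, (poleOrder u w : ℤ) := by
        unfold deg
        exact (Nat.castAddMonoidHom ℤ).map_finsum hpf
      rw [finsum_add_distrib hfin hpf', hsum, zero_add, ← hc, hdeg]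
    have e2 : ∑ᶠ u : DV k E, (if u = v then (i : ℤ) else
        if u = v' then ((m - i : ℕ) : ℤ) else 0) = m := by
      rw [finsum_eq_sum_of_support_subset _ (s := {v, v'}) (by
        intro u hu
        rw [Function.mem_support] at hu
        by_contra hc
        rw [Finset.coe_insert, Finset.coe_singleton, Set.mem_insert_iff,
          Set.mem_singleton_iff, not_or] at hc
        rw [if_neg hc.1, if_neg hc.2] at hu
        exact hu rfl), Finset.sum_pair hvv, if_pos rfl, if_neg hvv.symm, if_pos rfl]
      omega
    have key := eq_of_finsum (fun u : DV k E => u.ord (F i) + (poleOrder u w : ℤ))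
      (fun u => if u = v then (i : ℤ) else if u = v' then ((m - i : ℕ) : ℤ) else 0)
      (by
        refine (hfin.union hpf).subset ?_
        intro u hu
        by_contra hc
        rw [Set.mem_union, not_or] at hc
        have c1 : u.ord (F i) = 0 := by
          by_contra h
          exact hc.1 h
        have c2 : poleOrder u w = 0 := by
          by_contra h
          exact hc.2 h
        apply hu
        show u.ord (F i) + (poleOrder u w : ℤ) = 0
        rw [c1, c2]
        simp)
      (by
        refine (Set.toFinite ({v, v'} : Set (DV k E))).subset ?_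
        intro u hu
        by_contra hc
        rw [Set.mem_insert_iff, Set.mem_singleton_iff, not_or] at hc
        apply hu
        rw [if_neg hc.1, if_neg hc.2])
      (by
        intro u
        by_cases c1 : u = v
        · subst c1
          rw [if_pos rfl, hpv]
          simpa using h3
        · rw [if_neg c1]
          by_cases c2 : u = v'
          · subst c2
            rw [if_pos rfl, hpv']
            simpa using h4
          · rw [if_neg c2]
            rcases ge_span w u h1 with h | h
            · exact absurd h h2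
            · omega)
      (by rw [e1, e2])
    intro u
    exact (key u).symm
  obtain ⟨h01, h02, -, -⟩ := hF 0 (by omega)
  obtain ⟨h11, h12, -, -⟩ := hF 1 hm
  set s : E := F 1 / F 0 with hs
  have hs0 : s ≠ 0 := div_ne_zero h12 h02
  have hsord : ∀ u : DV k E, u.ord s = if u = v then (1 : ℤ) else if u = v' then -1 else 0 := by
    intro u
    have e0 := hord 0 (by omega) u
    have e1 := hord 1 hm u
    rw [hs, u.ord_div h12 h02]
    by_cases c1 : u = v
    · rw [if_pos c1] at e0 e1 ⊢
      push_cast at e0 e1
      omega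
    · rw [if_neg c1] at e0 e1 ⊢
      by_cases c2 : u = v'
      · rw [if_pos c2] at e0 e1 ⊢
        omega
      · rw [if_neg c2] at e0 e1 ⊢
        omega
  have hsnc : s ∉ Set.range (algebraMap k E) := by
    rintro ⟨a, ha⟩
    have h1 := hsord v
    rw [if_pos rfl, ← ha, v.ord_base] at h1
    omega
  have hcon : ∀ i ≤ m, ∃ a : k, a ≠ 0 ∧ F i = algebraMap k E a * (F 0 * s ^ i) := by
    intro i hi
    obtain ⟨h1, h2, -, -⟩ := hF i hi
    have hg0 : F 0 * s ^ i ≠ 0 := mul_ne_zero h02 (pow_ne_zero _ hs0)
    have h3 : F i / (F 0 * s ^ i) ∈ Set.range (algebraMap k E) := by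
      refine const_of_nonneg htr v0 _ fun u => ?_
      rw [u.ord_div h2 hg0, u.ord_mul' h02 (pow_ne_zero _ hs0), u.ord_pow, hsord u]
      have e0 := hord 0 (by omega) u
      have e1 := hord i hi u
      by_cases c1 : u = v
      · rw [if_pos c1] at e0 e1 ⊢
        push_cast at e0 e1
        omega
      · rw [if_neg c1] at e0 e1 ⊢
        by_cases c2 : u = v'
        · rw [if_pos c2] at e0 e1 ⊢
          omega
        · rw [if_neg c2] at e0 e1 ⊢
          omega
    obtain ⟨a, ha⟩ := h3
    refine ⟨a, ?_, ?_⟩
    · rintro rfl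
      rw [map_zero] at ha
      exact h2 ((div_eq_zero_iff.1 ha.symm).resolve_right hg0)
    · rw [ha, div_mul_cancel₀ _ hg0]
  -- the functions `F 0 * s ^ i` are a basis
  have hgli : LinearIndependent k (fun i : Fin (m + 1) => F 0 * s ^ (i : ℕ)) := by
    rw [Fintype.linearIndependent_iff]
    intro c hc
    have h1 : ∑ i : Fin (m + 1), c i • s ^ (i : ℕ) = 0 := by
      have h2 : F 0 * ∑ i : Fin (m + 1), c i • s ^ (i : ℕ) = 0 := by
        rw [Finset.mul_sum, ← hc]
        refine Finset.sum_congr rfl fun i _ => ?_
        rw [mul_smul_comm]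
      exact (mul_eq_zero.1 h2).resolve_left h02
    have h2 : ∑ i : Fin (m + 1), Polynomial.C (c i) * Polynomial.X ^ (i : ℕ) = 0 := by
      by_contra hne
      apply hsnc
      have halg : IsAlgebraic k s := by
        refine ⟨∑ i : Fin (m + 1), Polynomial.C (c i) * Polynomial.X ^ (i : ℕ), hne, ?_⟩
        rw [map_sum, ← h1]
        refine Finset.sum_congr rfl fun i _ => ?_
        rw [map_mul, Polynomial.aeval_C, map_pow, Polynomial.aeval_X, Algebra.smul_def]
      have hint : IsIntegral k s := halg.isIntegral
      have h3 : (minpoly k s).degree = 1 := IsAlgClosed.degree_eq_one_of_irreducible k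
        (minpoly.irreducible hint)
      obtain ⟨a, ha⟩ := minpoly.mem_range_of_degree_eq_one k s h3
      exact ⟨a, ha⟩
    intro i
    have h3 := congrArg (fun p : Polynomial k => p.coeff (i : ℕ)) h2
    simp only [Polynomial.finsetSum_coeff, Polynomial.coeff_C_mul, Polynomial.coeff_X_pow,
      Polynomial.coeff_zero] at h3
    rw [Finset.sum_eq_single i] at h3
    · simpa using h3
    · intro j _ hj
      rw [if_neg, mul_zero]
      intro h
      exact hj (Fin.ext h.symm)
    · intro h
      exact absurd (Finset.mem_univ i) h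
  have hgle : Submodule.span k (Set.range fun i : Fin (m + 1) => F 0 * s ^ (i : ℕ)) ≤
      Submodule.span k (Set.range w) := by
    rw [Submodule.span_le]
    rintro _ ⟨i, rfl⟩
    obtain ⟨a, ha, hFa⟩ := hcon i (by omega)
    have h1 : F 0 * s ^ (i : ℕ) = a⁻¹ • F i := by
      rw [hFa, Algebra.smul_def, ← mul_assoc, ← map_mul, inv_mul_cancel₀ ha, map_one, one_mul]
    show F 0 * s ^ (i : ℕ) ∈ Submodule.span k (Set.range w)
    rw [h1]
    exact Submodule.smul_mem _ _ (hF i (by omega)).1
  have hfd : FiniteDimensional k (Submodule.span k (Set.range w)) :=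
    FiniteDimensional.span_of_finite k (Set.finite_range w)
  have heq : Submodule.span k (Set.range fun i : Fin (m + 1) => F 0 * s ^ (i : ℕ)) =
      Submodule.span k (Set.range w) := by
    refine Submodule.eq_of_le_of_finrank_eq hgle ?_
    rw [finrank_span_eq_card hgli, finrank_span_eq_card hli]
  have hz : ∀ j, ∃ c : Fin (m + 1) → k, ∑ i, c i • (F 0 * s ^ (i : ℕ)) = w j := by
    intro j
    have h1 : w j ∈ Submodule.span k (Set.range fun i : Fin (m + 1) => F 0 * s ^ (i : ℕ)) := by
      rw [heq]
      exact Submodule.subset_span ⟨j, rfl⟩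
    exact (Submodule.mem_span_range_iff_exists_fun k).1 h1
  choose c hc using hz
  refine ⟨s, F 0, fun i j => c j i, ?_, h02, hsnc, ?_⟩
  · have h1 : LinearIndependent k c := by
      rw [Fintype.linearIndependent_iff] at hli ⊢
      intro d hd
      apply hli
      have h2 : ∀ i, ∑ j, d j * c j i = 0 := by
        intro i
        have := congrFun hd i
        simpa using this
      calc ∑ j, d j • w j = ∑ j, d j • ∑ i, c j i • (F 0 * s ^ (i : ℕ)) := by
            refine Finset.sum_congr rfl fun j _ => ?_
            rw [hc j]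
        _ = ∑ i : Fin (m + 1), (∑ j, d j * c j i) • (F 0 * s ^ (i : ℕ)) := by
            simp only [Finset.smul_sum, Finset.sum_smul, smul_smul]
            rw [Finset.sum_comm]
        _ = 0 := by
            refine Finset.sum_eq_zero fun i _ => ?_
            rw [h2 i, zero_smul]
    have h2 : IsUnit (Matrix.of c) := Matrix.linearIndependent_rows_iff_isUnit.1 h1
    have h3 := Matrix.linearIndependent_cols_iff_isUnit.2 h2
    exact h3
  · intro j
    rw [← hc j, Finset.mul_sum]
    refine Finset.sum_congr rfl fun i _ => ?_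
    rw [Algebra.smul_def]
    ring

end Pool.Agent.H89.EE
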